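import Pool.Agent.Helper877_Smith.Exact
import Pool.Agent.Helper877_Smith.GraphRed

/-!
# Smith's conjecture on the topology of Steiner minimal trees of regular simplices, for
`d = m * 2 ^ k` vertices with `m` in `{2, 3, 5, 7, 11}` (MP_ebc12b_co, seat helper877)
-/

set_option autoImplicit false

namespace Pool.Agent.Results.MP_ebc12b_co.SmithFamilies

open Pool.Agent.Helper877_Smith

theorem result (k m : ℕ) (hm : m = 2 ∨ m = 3 ∨ m = 5 ∨ m = 7 ∨ m = 11) :
    (∃ T : FST (m * 2 ^ k), UIso T.top (Tgood (m * 2 ^ k)) ∧ T.ndg ∧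
      (∀ T' : FST (m * 2 ^ k), T.length ≤ T'.length) ∧
      ∀ (V : Type) [Fintype V] (G : SimpleGraph V) (pos : V → Sp (m * 2 ^ k)),
        G.Connected → (∀ i : Fin (m * 2 ^ k), ∃ v, pos v = tm i) → T.length ≤ netLen G pos) ∧
    ∀ T : FST (m * 2 ^ k), (∀ T' : FST (m * 2 ^ k), T.length ≤ T'.length) →
      UIso T.top (Tgood (m * 2 ^ k)) := by
  obtain ⟨⟨T, h1, h2, h3⟩, h4⟩ := exact_main k m hm
  refine ⟨⟨T, h1, h2, h3, fun V _ G pos hG hcov => ?_⟩, h4⟩
  have hp : 0 < 2 ^ k := by positivity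
  have hd : 2 ≤ m * 2 ^ k := by
    rcases hm with rfl | rfl | rfl | rfl | rfl <;> omega
  obtain ⟨T', hT'⟩ := exists_fst_le hd V G pos hG hcov
  exact (h3 T').trans hT'

end Pool.Agent.Results.MP_ebc12b_co.SmithFamilies
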