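import Pool.Agent.Helper877_Smith.Bound
import Pool.Agent.Helper877_Smith.GraphRed

/-!
# The spectral lower bound for the length of Steiner trees of regular simplices is minimised
exactly by Smith's conjectured topology, for every number of vertices (MP_ebc12b_co, seat helper877)
-/

set_option autoImplicit false

namespace Pool.Agent.Results.MP_ebc12b_co.SpectralBound

open Pool.Agent.Helper877_Smith

theorem result (d : ℕ) (hd : 2 ≤ d) :
    (∀ T : FST d, specSum T.top ≤ T.length) ∧
    (∀ S : Sh × Sh, S.1.size + S.2.size = d →
      specSum (Tgood d) ≤ specSum S ∧ (specSum S = specSum (Tgood d) → UIso S (Tgood d))) ∧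
    ∀ (V : Type) [Fintype V] (G : SimpleGraph V) (pos : V → Sp d),
      G.Connected → (∀ i : Fin d, ∃ v, pos v = tm i) → specSum (Tgood d) ≤ netLen G pos := by
  refine ⟨fun T => specSum_le T, fun S hS => specSum_good hd hS, fun V _ G pos hG hcov => ?_⟩
  obtain ⟨T, hT⟩ := exists_fst_le hd V G pos hG hcov
  exact ((specSum_good hd (size_top T)).1.trans (specSum_le T)).trans hT

end Pool.Agent.Results.MP_ebc12b_co.SpectralBound
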